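import Mathlib

set_option autoImplicit false

namespace Pool.Agent.Y214.QP

open Polynomial IsLocalRing

/-- The homogenisation of degree `n` of the polynomial `f`, evaluated at `(a, b)`:
`∑_{i ≤ n} f_i a ^ i b ^ (n - i)`. -/
def HH {A S : Type*} [CommRing A] [CommRing S] (φ : A →+* S) (f : A[X]) (n : ℕ) (a b : S) : S :=
  ∑ i ∈ Finset.range (n + 1), φ (f.coeff i) * a ^ i * b ^ (n - i)

section HH
variable {A S T : Type*} [CommRing A] [CommRing S] [CommRing T]

lemma HH_map (φ : A →+* S) (θ : S →+* T) (f : A[X]) (n : ℕ) (a b : S) :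
    θ (HH φ f n a b) = HH (θ.comp φ) f n (θ a) (θ b) := by
  simp [HH, map_sum]

lemma HH_scale (φ : A →+* S) (f : A[X]) (n : ℕ) (s a b : S) :
    HH φ f n (s * a) (s * b) = s ^ n * HH φ f n a b := by
  rw [HH, HH, Finset.mul_sum]
  refine Finset.sum_congr rfl fun i hi => ?_
  have hi' : i ≤ n := Nat.lt_succ_iff.1 (Finset.mem_range.1 hi)
  have : s ^ n = s ^ i * s ^ (n - i) := by rw [← pow_add]; congr 1; omega
  rw [this]; ring

lemma HH_one (φ : A →+* S) (f : A[X]) (n : ℕ) (hn : f.natDegree ≤ n) (a : S) :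
    HH φ f n a 1 = f.eval₂ φ a := by
  rw [HH, eval₂_eq_sum_range' φ (Nat.lt_succ_of_le hn)]
  simp

lemma HH_zero (φ : A →+* S) (f : A[X]) (n : ℕ) :
    HH φ f n 1 0 = φ (f.coeff n) := by
  rw [HH, Finset.sum_eq_single n]
  · simp
  · intro i hi hin
    have hi' : i < n := lt_of_le_of_ne (Nat.lt_succ_iff.1 (Finset.mem_range.1 hi)) hin
    rw [zero_pow (by omega)]; simp
  · intro h; exact absurd (Finset.mem_range.2 (Nat.lt_succ_self n)) h

lemma HH_reverse (φ : A →+* S) (f : A[X]) (b : S) :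
    HH φ f f.natDegree 1 b = f.reverse.eval₂ φ b := by
  rw [HH, eval₂_eq_sum_range' φ (Nat.lt_succ_of_le f.reverse_natDegree_le),
    ← Finset.sum_range_reflect]
  refine Finset.sum_congr rfl fun i hi => ?_
  have hi' : i ≤ f.natDegree := Nat.lt_succ_iff.1 (Finset.mem_range.1 hi)
  rw [coeff_reverse, revAt_le hi']
  simp only [Nat.add_sub_cancel, one_pow, mul_one]
  congr 2
  omega
end HH

section scaling
variable {A k : Type*} [CommRing A] [IsDomain A] [ValuationRing A] [Field k] [Algebra A k]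
  [IsFractionRing A k]

lemma scale_aux (α β γ : k) (hγ : γ ≠ 0)
    (h1 : ValuationRing.valuation A k α ≤ ValuationRing.valuation A k γ)
    (h2 : ValuationRing.valuation A k β ≤ ValuationRing.valuation A k γ) :
    ∃ (c : k) (a b : A), c ≠ 0 ∧ c * α = algebraMap A k a ∧ c * β = algebraMap A k b ∧
      c * γ = algebraMap A k 1 := by
  set v := ValuationRing.valuation A k
  have hv : v γ ≠ 0 := (map_ne_zero v).2 hγ
  have key : ∀ δ : k, v δ ≤ v γ → ∃ a : A, algebraMap A k a = γ⁻¹ * δ := by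
    intro δ hδ
    rw [← ValuationRing.mem_integer_iff]
    change v (γ⁻¹ * δ) ≤ 1
    rw [map_mul, map_inv₀]
    exact inv_mul_le_one_of_le₀ hδ zero_le
  obtain ⟨a, ha⟩ := key α h1
  obtain ⟨b, hb⟩ := key β h2
  exact ⟨γ⁻¹, a, b, inv_ne_zero hγ, ha.symm, hb.symm, by rw [inv_mul_cancel₀ hγ, map_one]⟩

lemma scale3 (α β γ : k) (h : ¬ (α = 0 ∧ β = 0 ∧ γ = 0)) :
    ∃ (c : k) (a b d : A), c ≠ 0 ∧ c * α = algebraMap A k a ∧ c * β = algebraMap A k b ∧
      c * γ = algebraMap A k d ∧ (IsUnit a ∨ IsUnit b ∨ IsUnit d) := by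
  set v := ValuationRing.valuation A k with hvdef
  have hz : ∀ δ ε : k, ε = 0 → v δ ≤ v ε → δ = 0 := by
    intro δ ε h1 h2
    rw [h1, map_zero] at h2
    exact (map_eq_zero v).1 (le_antisymm h2 zero_le)
  rcases le_total (v α) (v β) with h1 | h1
  · rcases le_total (v β) (v γ) with h2 | h2
    · have hγ : γ ≠ 0 := fun h0 => h ⟨hz _ _ h0 (h1.trans h2), hz _ _ h0 h2, h0⟩
      obtain ⟨c, a, b, hc, ha, hb, hg⟩ := scale_aux (A := A) α β γ hγ (h1.trans h2) h2
      exact ⟨c, a, b, 1, hc, ha, hb, hg, Or.inr (Or.inr isUnit_one)⟩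
    · have hβ : β ≠ 0 := fun h0 => h ⟨hz _ _ h0 h1, h0, hz _ _ h0 h2⟩
      obtain ⟨c, a, b, hc, ha, hb, hg⟩ := scale_aux (A := A) α γ β hβ h1 h2
      exact ⟨c, a, 1, b, hc, ha, hg, hb, Or.inr (Or.inl isUnit_one)⟩
  · rcases le_total (v α) (v γ) with h2 | h2
    · have hγ : γ ≠ 0 := fun h0 => h ⟨hz _ _ h0 h2, hz _ _ h0 (h1.trans h2), h0⟩
      obtain ⟨c, a, b, hc, ha, hb, hg⟩ := scale_aux (A := A) α β γ hγ h2 (h1.trans h2)
      exact ⟨c, a, b, 1, hc, ha, hb, hg, Or.inr (Or.inr isUnit_one)⟩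
    · have hα : α ≠ 0 := fun h0 => h ⟨h0, hz _ _ h0 h1, hz _ _ h0 h2⟩
      obtain ⟨c, a, b, hc, ha, hb, hg⟩ := scale_aux (A := A) β γ α hα h1 h2
      exact ⟨c, 1, a, b, hc, hg, ha, hb, Or.inl isUnit_one⟩

/-- three elements of an extension of degree at most two satisfy a linear relation with
coefficients in the valuation ring, one of which is a unit. -/
lemma rel3 {K : Type*} [Field K] [Algebra k K] [FiniteDimensional k K]
    (hK : Module.finrank k K ≤ 2) (t : Fin 3 → K) :
    ∃ a b d : A, (IsUnit a ∨ IsUnit b ∨ IsUnit d) ∧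
      algebraMap k K (algebraMap A k a) * t 0 + algebraMap k K (algebraMap A k b) * t 1 +
        algebraMap k K (algebraMap A k d) * t 2 = 0 := by
  have hnot : ¬ LinearIndependent k t := by
    intro h
    have := h.fintype_card_le_finrank
    simp at this
    omega
  rw [Fintype.linearIndependent_iff] at hnot
  push Not at hnot
  obtain ⟨g, hg, i, hi⟩ := hnot
  have hne : ¬ (g 0 = 0 ∧ g 1 = 0 ∧ g 2 = 0) := by
    rintro ⟨h0, h1, h2⟩
    apply hi
    fin_cases i <;> assumption
  obtain ⟨c, a, b, d, hc, ha, hb, hd, hu⟩ := scale3 (A := A) (g 0) (g 1) (g 2) hne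
  refine ⟨a, b, d, hu, ?_⟩
  rw [← ha, ← hb, ← hd]
  rw [Fin.sum_univ_three] at hg
  simp only [Algebra.smul_def] at hg
  simp only [map_mul]
  linear_combination (algebraMap k K c) * hg
end scaling

lemma normalise {K : Type*} [Field K] (B : ValuationSubring K) (a b : K) (h : a ≠ 0 ∨ b ≠ 0) :
    ∃ (s : K) (x₁ x₂ : B), s ≠ 0 ∧ a = s * x₁ ∧ b = s * x₂ ∧
      (x₂ = 1 ∨ (x₁ = 1 ∧ residue B x₂ = 0)) := by
  by_cases hb : b = 0
  · subst hb
    have ha : a ≠ 0 := by simpa using h
    exact ⟨a, 1, 0, ha, by simp, by simp, Or.inr ⟨rfl, by simp⟩⟩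
  · by_cases hm : a / b ∈ B
    · exact ⟨b, ⟨a / b, hm⟩, 1, hb, by field_simp, by simp, Or.inl rfl⟩
    · have ha : a ≠ 0 := by
        rintro rfl
        apply hm
        rw [zero_div]
        exact B.zero_mem
      have hm' : b / a ∈ B := by
        rcases B.mem_or_inv_mem (a / b) with h' | h'
        · exact absurd h' hm
        · rwa [inv_div] at h'
      refine ⟨a, 1, ⟨b / a, hm'⟩, ha, by simp, by field_simp, Or.inr ⟨rfl, ?_⟩⟩
      rw [residue_eq_zero_iff, mem_maximalIdeal, mem_nonunits_iff]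
      intro hu
      obtain ⟨c, hc⟩ := hu.exists_right_inv
      apply hm
      have h1 : (b / a) * (c : K) = 1 := by
        have := congrArg (Subtype.val) hc
        simpa using this
      have h2 : a / b = c := by
        rw [eq_inv_of_mul_eq_one_right h1, inv_div]
      rw [h2]
      exact c.2

section core
variable {A K : Type*} [CommRing A] [Field K]

/-- a `K`-point of `y ^ 2 = f(x)` (in homogeneous form), where `f` takes only non-square values over
the residue field, produces an element of the valuation ring whose residue is not in the residue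
field of the small ring. -/
lemma step1 [IsLocalRing A] (B : ValuationSubring K) (ψ : A →+* B) [IsLocalHom ψ] (f : A[X]) (m : ℕ)
    (hfdeg : f.natDegree ≤ 2 * m) (hf0 : ¬ IsSquare (residue A (f.coeff (2 * m))))
    (hf : ∀ a : ResidueField A, ¬ IsSquare ((f.map (residue A)).eval a))
    (a b y : K) (hab : a ≠ 0 ∨ b ≠ 0)
    (hy : y ^ 2 = HH (B.subtype.comp ψ) f (2 * m) a b) :
    ∃ t : B, ∀ c : ResidueField A, ResidueField.map ψ c ≠ residue B t := by
  obtain ⟨s, x₁, x₂, hs, rfl, rfl, hx⟩ := normalise B a b hab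
  rw [HH_scale] at hy
  have hy' : (y / s ^ m) ^ 2 = B.subtype (HH ψ f (2 * m) x₁ x₂) := by
    rw [HH_map, div_pow, hy, ← pow_mul, mul_comm m 2]
    have : s ^ (2 * m) ≠ 0 := pow_ne_zero _ hs
    field_simp
    rfl
  have hyB : y / s ^ m ∈ B := by
    rw [← B.valuation_le_one_iff]
    have h1 : B.valuation ((y / s ^ m) ^ 2) ≤ 1 := by
      rw [hy', B.valuation_le_one_iff]
      exact Subtype.property _
    rw [map_pow] at h1
    exact (pow_le_one_iff (by norm_num)).1 h1
  set yB : B := ⟨y / s ^ m, hyB⟩ with hyBdef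
  have h2 : yB ^ 2 = HH ψ f (2 * m) x₁ x₂ := by
    apply Subtype.ext
    exact hy'
  have h3 : (residue B yB) ^ 2 = HH ((ResidueField.map ψ).comp (residue A)) f (2 * m)
      (residue B x₁) (residue B x₂) := by
    rw [← map_pow, h2, HH_map]
    congr 1
  have hinj : Function.Injective (ResidueField.map ψ) := (ResidueField.map ψ).injective
  by_contra hcon
  push Not at hcon
  obtain ⟨c, hc⟩ := hcon yB
  rcases hx with hx | ⟨hx1, hx2⟩
  · obtain ⟨d, hd⟩ := hcon x₁
    apply hf d
    refine ⟨c, hinj ?_⟩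
    rw [map_mul, hc, ← pow_two, h3, hx, map_one, HH_one _ _ _ hfdeg, ← hd, ← eval₂_hom,
      eval₂_map]
  · apply hf0
    refine ⟨c, hinj ?_⟩
    rw [map_mul, hc, ← pow_two, h3, hx1, hx2, map_one, HH_zero]
    rfl

/-- if `G` is irreducible of degree at least three over the residue field, then its values
at integral points are units -/
lemma isUnit_value {k : Type*} [IsDomain A] [ValuationRing A] [Field k] [Algebra A k]
    [IsFractionRing A k] [Algebra k K] [FiniteDimensional k K] (hK : Module.finrank k K ≤ 2)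
    (B : ValuationSubring K) (ψ : A →+* B) [IsLocalHom ψ]
    (hψ : B.subtype.comp ψ = (algebraMap k K).comp (algebraMap A k))
    (G : A[X]) (hG : Irreducible (G.map (residue A))) (hGdeg : 3 ≤ (G.map (residue A)).natDegree)
    (z : B) : IsUnit (G.eval₂ ψ z) := by
  by_contra hu
  have h0 : residue B (G.eval₂ ψ z) = 0 := by
    rw [residue_eq_zero_iff, mem_maximalIdeal]
    exact hu
  have h1 : (G.map (residue A)).eval₂ (ResidueField.map ψ) (residue B z) = 0 := by
    rw [eval₂_map, ← h0, hom_eval₂]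
    rfl
  obtain ⟨a, b, d, hunit, hrel⟩ := rel3 (A := A) (k := k) hK ![1, (z : K), (z : K) ^ 2]
  have hrel' : ψ a + ψ b * z + ψ d * z ^ 2 = 0 := by
    apply Subtype.ext
    have hc : ∀ e : A, ((ψ e : B) : K) = algebraMap k K (algebraMap A k e) := fun e =>
      RingHom.congr_fun hψ e
    simpa [hc] using hrel
  have h2 := congrArg (residue B) hrel'
  rw [map_add, map_add, map_mul, map_mul, map_pow, map_zero] at h2
  let P : (ResidueField A)[X] := C (residue A a) + C (residue A b) * X + C (residue A d) * X ^ 2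
  have hP : P.eval₂ (ResidueField.map ψ) (residue B z) = 0 := by
    simp only [P, eval₂_add, eval₂_mul, eval₂_C, eval₂_X, eval₂_X_pow, ResidueField.map_residue]
    exact h2
  have hP0 : P ≠ 0 := by
    intro h
    have e0 : P.coeff 0 = residue A a := by simp [P]
    have e1 : P.coeff 1 = residue A b := by simp [P, coeff_C]
    have e2 : P.coeff 2 = residue A d := by simp [P]
    rw [h, coeff_zero] at e0 e1 e2
    rcases hunit with h' | h' | h'
    · exact (h'.map (residue A)).ne_zero e0.symm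
    · exact (h'.map (residue A)).ne_zero e1.symm
    · exact (h'.map (residue A)).ne_zero e2.symm
  have hPdeg : P.natDegree ≤ 2 := by
    simp only [P]
    compute_degree
  have hnd : ¬ (G.map (residue A)) ∣ P := by
    intro h
    have := natDegree_le_of_dvd h hP0
    omega
  have hcop : IsCoprime (G.map (residue A)) P := (hG.coprime_iff_not_dvd).2 hnd
  obtain ⟨u, v, huv⟩ := hcop
  have h3 := congrArg (eval₂ (ResidueField.map ψ) (residue B z)) huv
  rw [eval₂_add, eval₂_mul, eval₂_mul, h1, hP, mul_zero, mul_zero, add_zero, eval₂_one] at h3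
  exact zero_ne_one h3

/-- a `K`-point of `w ^ 2 = π G(z)` produces an element `τ` of the maximal ideal of the valuation
ring whose square divides `π`. -/
lemma step2 {k : Type*} [IsDomain A] [ValuationRing A] [Field k] [Algebra A k]
    [IsFractionRing A k] [Algebra k K] [FiniteDimensional k K] (hK : Module.finrank k K ≤ 2)
    (B : ValuationSubring K) (ψ : A →+* B) [IsLocalHom ψ]
    (hψ : B.subtype.comp ψ = (algebraMap k K).comp (algebraMap A k))
    (G : A[X]) (l : ℕ) (hG : Irreducible (G.map (residue A)))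
    (hGdeg : (G.map (residue A)).natDegree = 2 * l) (hGdeg' : G.natDegree ≤ 2 * l) (hl : 2 ≤ l)
    (π : A) (hπ : residue A π = 0)
    (a b w : K) (hab : a ≠ 0 ∨ b ≠ 0)
    (hw : w ^ 2 = (B.subtype.comp ψ) π * HH (B.subtype.comp ψ) G (2 * l) a b) :
    ∃ τ u : B, residue B τ = 0 ∧ ψ π = τ ^ 2 * u := by
  obtain ⟨s, x₁, x₂, hs, rfl, rfl, hx⟩ := normalise B a b hab
  have hu : IsUnit (HH ψ G (2 * l) x₁ x₂) := by
    rcases hx with hx | ⟨hx1, hx2⟩
    · rw [hx, HH_one _ _ _ hGdeg']
      exact isUnit_value hK B ψ hψ G hG (by omega) x₁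
    · by_contra hu
      have h0 : residue B (HH ψ G (2 * l) x₁ x₂) = 0 := by
        rw [residue_eq_zero_iff, mem_maximalIdeal]
        exact hu
      rw [HH_map, hx1, hx2, map_one, HH_zero] at h0
      have h1 : ResidueField.map ψ (residue A (G.coeff (2 * l))) = 0 := h0
      rw [map_eq_zero, ← coeff_map, ← hGdeg] at h1
      have : (G.map (residue A)).leadingCoeff = 0 := h1
      rw [leadingCoeff_eq_zero] at this
      exact hG.ne_zero this
  obtain ⟨v, hv⟩ := hu.exists_right_inv
  rw [HH_scale] at hw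
  have hy' : (w / s ^ l) ^ 2 = B.subtype (ψ π * HH ψ G (2 * l) x₁ x₂) := by
    rw [map_mul, HH_map, div_pow, hw, ← pow_mul, mul_comm l 2]
    have : s ^ (2 * l) ≠ 0 := pow_ne_zero _ hs
    field_simp
    rfl
  have hyB : w / s ^ l ∈ B := by
    rw [← B.valuation_le_one_iff]
    have h1 : B.valuation ((w / s ^ l) ^ 2) ≤ 1 := by
      rw [hy', B.valuation_le_one_iff]
      exact (ψ π * HH ψ G (2 * l) x₁ x₂).2
    rw [map_pow] at h1
    exact (pow_le_one_iff (by norm_num)).1 h1
  have h2 : (⟨w / s ^ l, hyB⟩ : B) ^ 2 = ψ π * HH ψ G (2 * l) x₁ x₂ := by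
    apply Subtype.ext
    exact hy'
  refine ⟨⟨w / s ^ l, hyB⟩, v, ?_, ?_⟩
  · have h3 := congrArg (residue B) h2
    rw [map_pow, map_mul, ← ResidueField.map_residue, hπ, map_zero, zero_mul] at h3
    exact pow_eq_zero_iff (by norm_num) |>.1 h3
  · rw [h2, mul_assoc, hv, mul_one]

/-- The main lemma: over an extension `K/k` of degree at most two there are no points on both
curves. -/
theorem core {k : Type*} [IsDomain A] [ValuationRing A] [Field k] [Algebra A k]
    [IsFractionRing A k] [Algebra k K] [FiniteDimensional k K] (hK : Module.finrank k K ≤ 2)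
    (f : A[X]) (m : ℕ)
    (hfdeg : f.natDegree ≤ 2 * m) (hf0 : ¬ IsSquare (residue A (f.coeff (2 * m))))
    (hf : ∀ a : ResidueField A, ¬ IsSquare ((f.map (residue A)).eval a))
    (G : A[X]) (l : ℕ) (hG : Irreducible (G.map (residue A)))
    (hGdeg : (G.map (residue A)).natDegree = 2 * l) (hGdeg' : G.natDegree ≤ 2 * l) (hl : 2 ≤ l)
    (π : A) (hπ0 : π ≠ 0) (hπ : ∀ a : A, residue A a = 0 ↔ π ∣ a)
    (a b y : K) (hab : a ≠ 0 ∨ b ≠ 0)
    (hy : y ^ 2 = HH ((algebraMap k K).comp (algebraMap A k)) f (2 * m) a b)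
    (c d w : K) (hcd : c ≠ 0 ∨ d ≠ 0)
    (hw : w ^ 2 = algebraMap k K (algebraMap A k π) *
      HH ((algebraMap k K).comp (algebraMap A k)) G (2 * l) c d) : False := by
  obtain ⟨B, hB, hloc⟩ := IsLocalRing.exists_factor_valuationRing
    ((algebraMap k K).comp (algebraMap A k))
  let ψ : A →+* B := ((algebraMap k K).comp (algebraMap A k)).codRestrict B.toSubring hB
  have : IsLocalHom ψ := hloc
  have hψ : B.subtype.comp ψ = (algebraMap k K).comp (algebraMap A k) := by
    ext e; rfl
  obtain ⟨t, ht⟩ := step1 B ψ f m hfdeg hf0 hf a b y hab (by rw [hψ]; exact hy)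
  obtain ⟨τ, u, hτ, hπτ⟩ := step2 hK B ψ hψ G l hG hGdeg hGdeg' hl π
    ((hπ π).2 dvd_rfl) c d w hcd (by rw [hψ]; exact hw)
  obtain ⟨p, q, r, hunit, hrel⟩ := rel3 (A := A) (k := k) hK ![1, (t : K), (τ : K)]
  have hc : ∀ e : A, ((ψ e : B) : K) = algebraMap k K (algebraMap A k e) := fun e =>
    RingHom.congr_fun hψ e
  have hrel' : ψ p + ψ q * t + ψ r * τ = 0 := by
    apply Subtype.ext
    simpa [hc] using hrel
  have h2 := congrArg (residue B) hrel'
  rw [map_add, map_add, map_mul, map_mul, hτ, mul_zero, add_zero, map_zero] at h2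
  rw [← ResidueField.map_residue, ← ResidueField.map_residue] at h2
  have hq : residue A q = 0 := by
    by_contra hq
    apply ht (- (residue A p) / residue A q)
    have hq' : ResidueField.map ψ (residue A q) ≠ 0 := (_root_.map_ne_zero _).2 hq
    rw [map_div₀, map_neg]
    field_simp
    linear_combination -h2
  have hp : residue A p = 0 := by
    rw [hq, map_zero, zero_mul, add_zero, map_eq_zero] at h2
    exact h2
  have hr : IsUnit r := by
    rcases hunit with h | h | h
    · exact absurd hp (h.map (residue A)).ne_zero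
    · exact absurd hq (h.map (residue A)).ne_zero
    · exact h
  obtain ⟨p', rfl⟩ := (hπ p).1 hp
  obtain ⟨q', rfl⟩ := (hπ q).1 hq
  obtain ⟨r', hr'⟩ := hr.exists_right_inv
  have h4 : ψ r * ψ r' = 1 := by rw [← map_mul, hr', map_one]
  have hτ0 : τ ≠ 0 := by
    rintro rfl
    have hψπ : ψ π = 0 := by rw [hπτ]; ring
    have h6 : algebraMap k K (algebraMap A k π) = 0 := by rw [← hc, hψπ]; rfl
    rw [map_eq_zero] at h6
    exact hπ0 ((IsFractionRing.injective A k) (by rw [h6, map_zero]))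
  have h5 : τ * (1 + τ * (u * (ψ p' + ψ q' * t) * ψ r')) = 0 := by
    have e1 : ψ (π * p') = τ ^ 2 * u * ψ p' := by rw [map_mul, hπτ]
    have e2 : ψ (π * q') = τ ^ 2 * u * ψ q' := by rw [map_mul, hπτ]
    rw [e1, e2] at hrel'
    linear_combination (ψ r') * hrel' - τ * h4
  have h6 : 1 + τ * (u * (ψ p' + ψ q' * t) * ψ r') = 0 := by
    rcases mul_eq_zero.1 h5 with h | h
    · exact absurd h hτ0
    · exact h
  have h7 := congrArg (residue B) h6
  rw [map_add, map_mul, hτ, zero_mul, map_one, add_zero, map_zero] at h7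
  exact one_ne_zero h7

end core

end Pool.Agent.Y214.QP
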