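import Mathlib
import Pool.Agent.Y214.QP.Core

set_option autoImplicit false

namespace Pool.Agent.Y214.QP

open Polynomial IsLocalRing

section HH
variable {A S T : Type*} [CommRing A] [CommRing S] [CommRing T]

lemma HH_comp (θ : A →+* S) (φ : S →+* T) (f : A[X]) (n : ℕ) (a b : T) :
    HH (φ.comp θ) f n a b = HH φ (f.map θ) n a b := by
  simp [HH]

lemma HH_C_mul (φ : A →+* S) (c : A) (f : A[X]) (n : ℕ) (a b : S) :
    HH φ (C c * f) n a b = φ c * HH φ f n a b := by
  simp only [HH, coeff_C_mul, map_mul, Finset.mul_sum]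
  refine Finset.sum_congr rfl fun i _ => ?_
  ring
end HH

section finite
variable {F : Type*} [Field F] [Finite F]

/-- monic irreducible polynomials of every positive degree over a finite field -/
lemma exists_irred (n : ℕ) (hn : n ≠ 0) : ∃ s : F[X], s.Monic ∧ Irreducible s ∧ s.natDegree = n := by
  obtain ⟨p, hp⟩ := CharP.exists F
  have hpp : Fact p.Prime := ⟨CharP.char_is_prime F p⟩
  have : NeZero n := ⟨hn⟩
  obtain ⟨θ, hθ⟩ := Field.exists_primitive_element F (FiniteField.Extension F p n)
  have hint : IsIntegral F θ := Algebra.IsIntegral.isIntegral θ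
  refine ⟨minpoly F θ, minpoly.monic hint, minpoly.irreducible hint, ?_⟩
  rw [← IntermediateField.adjoin.finrank hint, hθ, IntermediateField.finrank_top',
    FiniteField.finrank_extension]

/-- a polynomial of degree `2 m` all of whose values, the value at infinity included,
are non-squares -/
lemma exists_nonsq (h2 : ringChar F ≠ 2) (m : ℕ) (hm : 2 ≤ m) :
    ∃ s : F[X], s.natDegree ≤ 2 * m ∧ ¬ IsSquare (s.coeff (2 * m)) ∧
      ∀ a : F, ¬ IsSquare (s.eval a) := by
  obtain ⟨u, hu⟩ := FiniteField.exists_nonsquare h2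
  obtain ⟨s, hs1, hs2, hs3⟩ := exists_irred (F := F) m (by omega)
  have hu0 : u ≠ 0 := by rintro rfl; exact hu IsSquare.zero
  refine ⟨C u * s ^ 2, ?_, ?_, ?_⟩
  · rw [natDegree_C_mul hu0, natDegree_pow, hs3]
  · have : (s ^ 2).coeff (2 * m) = 1 := by
      have h1 : (s ^ 2).Monic := hs1.pow 2
      have h2 : (s ^ 2).natDegree = 2 * m := by rw [natDegree_pow, hs3]
      rw [← h2]
      exact h1
    rw [coeff_C_mul, this, mul_one]
    exact hu
  · intro a h
    rw [eval_mul, eval_C, eval_pow] at h
    have hsa : s.eval a ≠ 0 := by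
      intro h0
      have h1 : s.natDegree = 1 := natDegree_eq_of_degree_eq_some
        (degree_eq_one_of_irreducible_of_root hs2 h0)
      omega
    apply hu
    obtain ⟨c, hc⟩ := h
    refine ⟨c / s.eval a, ?_⟩
    field_simp
    rw [hc]; ring
end finite

/-- lifting polynomials with a bound for the degree -/
lemma exists_lift {R F : Type*} [CommRing R] [CommRing F] (φ : R →+* F)
    (hφ : Function.Surjective φ) (s : F[X]) (n : ℕ) (hn : s.natDegree ≤ n) :
    ∃ t : R[X], t.natDegree ≤ n ∧ t.map φ = s := by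
  choose g hg using hφ
  refine ⟨∑ i ∈ Finset.range (n + 1), C (g (s.coeff i)) * X ^ i, ?_, ?_⟩
  · refine natDegree_sum_le_of_forall_le _ _ fun i hi => ?_
    exact (natDegree_C_mul_X_pow_le _ _).trans (Nat.lt_succ_iff.1 (Finset.mem_range.1 hi))
  · rw [Polynomial.map_sum]
    simp only [Polynomial.map_mul, map_C, Polynomial.map_pow, map_X, hg]
    exact (as_sum_range_C_mul_X_pow' _ (Nat.lt_succ_of_le hn)).symm

/-- irreducibility modulo the maximal ideal of a discrete valuation ring -/
lemma irred_of_residue {A k : Type*} [CommRing A] [IsDomain A] [IsDiscreteValuationRing A]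
    [Field k] [Algebra A k] [IsFractionRing A k] (f : A[X]) (n : ℕ) (hf : f.natDegree ≤ n)
    (hn : (f.map (residue A)).natDegree = n) (hirr : Irreducible (f.map (residue A))) :
    f.natDegree = n ∧ Irreducible (f.map (algebraMap A k)) := by
  have hdeg : f.natDegree = n := le_antisymm hf (by rw [← hn]; exact natDegree_map_le)
  refine ⟨hdeg, ?_⟩
  have hlc : IsUnit f.leadingCoeff := by
    have h1 : residue A f.leadingCoeff ≠ 0 := by
      rw [leadingCoeff, ← coeff_map, hdeg, ← hn]
      exact leadingCoeff_ne_zero.2 hirr.ne_zero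
    by_contra hu
    apply h1
    rw [residue_eq_zero_iff, mem_maximalIdeal]
    exact hu
  obtain ⟨u, hu⟩ := hlc
  let g : A[X] := C ((u⁻¹ : Aˣ) : A) * f
  have hgm : g.Monic := by
    rw [Monic, leadingCoeff_mul, leadingCoeff_C, ← hu, Units.inv_mul]
  have hgi : Irreducible g := by
    refine Monic.irreducible_of_irreducible_map (residue A) g hgm ?_
    simp only [g, Polynomial.map_mul, map_C]
    have hun : IsUnit (C (residue A ((u⁻¹ : Aˣ) : A))) :=
      isUnit_C.2 ((u⁻¹).isUnit.map (residue A))
    exact (irreducible_isUnit_mul hun).2 hirr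
  have h2 := (hgm.irreducible_iff_irreducible_map_fraction_map (K := k)).1 hgi
  simp only [g, Polynomial.map_mul, map_C] at h2
  have hun : IsUnit (C (algebraMap A k ((u⁻¹ : Aˣ) : A))) :=
    isUnit_C.2 ((u⁻¹).isUnit.map (algebraMap A k))
  exact (irreducible_isUnit_mul hun).1 h2

section dedekind
variable {R k : Type*} [CommRing R] [IsDedekindDomain R] [Field k] [Algebra R k]
  [IsFractionRing R k] (P : Ideal R) [P.IsMaximal]

/-- irreducibility over the fraction field from irreducibility modulo a maximal ideal -/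
lemma irred_of_mod (hP : P ≠ ⊥) (f : R[X]) (n : ℕ) (hf : f.natDegree ≤ n)
    (hn : (f.map (algebraMap R P.ResidueField)).natDegree = n)
    (hirr : Irreducible (f.map (algebraMap R P.ResidueField))) :
    f.natDegree = n ∧ Irreducible (f.map (algebraMap R k)) := by
  have hdeg : f.natDegree = n := le_antisymm hf (by rw [← hn]; exact natDegree_map_le)
  refine ⟨hdeg, ?_⟩
  let A := Localization.AtPrime P
  have : IsDiscreteValuationRing A :=
    IsLocalization.AtPrime.isDiscreteValuationRing_of_dedekind_domain R hP A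
  let _ : Algebra A k := IsLocalization.localizationAlgebraOfSubmonoidLe A k P.primeCompl (nonZeroDivisors R)
    P.primeCompl_le_nonZeroDivisors
  have : IsScalarTower R A k := IsLocalization.localization_isScalarTower_of_submonoid_le A k P.primeCompl
    (nonZeroDivisors R) P.primeCompl_le_nonZeroDivisors
  have : IsFractionRing A k :=
    IsFractionRing.isFractionRing_of_isDomain_of_isLocalization P.primeCompl A k
  have hcomp : (residue A).comp (algebraMap R A) = algebraMap R P.ResidueField := rfl
  have h1 := irred_of_residue (k := k) (f.map (algebraMap R A)) n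
    (natDegree_map_le.trans hf) (by rw [map_map, hcomp]; exact hn)
    (by rw [map_map, hcomp]; exact hirr)
  have h2 := h1.2
  rw [map_map, ← IsScalarTower.algebraMap_eq R A k] at h2
  exact h2

/-- a uniformizer in the Dedekind domain -/
lemma exists_unif (hP : P ≠ ⊥) : ∃ π : R, π ≠ 0 ∧ ∀ a : Localization.AtPrime P,
    residue _ a = 0 ↔ algebraMap R (Localization.AtPrime P) π ∣ a := by
  let A := Localization.AtPrime P
  have : IsDiscreteValuationRing A :=
    IsLocalization.AtPrime.isDiscreteValuationRing_of_dedekind_domain R hP A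
  obtain ⟨ϖ, hϖ⟩ := IsDiscreteValuationRing.exists_irreducible A
  obtain ⟨⟨π, s⟩, hπs⟩ := IsLocalization.surj P.primeCompl ϖ
  simp only at hπs
  have hs : IsUnit (algebraMap R A s) := IsLocalization.map_units A s
  have hass : Associated ϖ (algebraMap R A π) := by
    rw [← hπs]
    exact (associated_mul_unit_right ϖ _ hs)
  refine ⟨π, ?_, ?_⟩
  · rintro rfl
    rw [map_zero] at hass
    exact hϖ.ne_zero (associated_zero_iff_eq_zero _ |>.1 hass)
  · intro a
    rw [residue_eq_zero_iff, (IsDiscreteValuationRing.irreducible_iff_uniformizer ϖ).1 hϖ,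
      Ideal.mem_span_singleton, hass.dvd_iff_dvd_left]

/-- No points over extensions of degree at most two of the fraction field. -/
theorem noPoints (hP : P ≠ ⊥) (f : R[X]) (m : ℕ) (hfdeg : f.natDegree ≤ 2 * m)
    (hf0 : ¬ IsSquare (algebraMap R P.ResidueField (f.coeff (2 * m))))
    (hf : ∀ a : P.ResidueField, ¬ IsSquare ((f.map (algebraMap R P.ResidueField)).eval a))
    (G : R[X]) (l : ℕ) (hl : 2 ≤ l) (π : R) (hπ0 : π ≠ 0)
    (hπ : ∀ a : Localization.AtPrime P,
      residue _ a = 0 ↔ algebraMap R (Localization.AtPrime P) π ∣ a)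
    (G₁ : (Localization.AtPrime P)[X]) (hG₁ : G₁.natDegree ≤ 2 * l)
    (hG : G.map (algebraMap R (Localization.AtPrime P)) = C (algebraMap R _ π) * G₁)
    (hirr : Irreducible (G₁.map (residue _))) (hdeg : (G₁.map (residue _)).natDegree = 2 * l)
    {K : Type*} [Field K] [Algebra k K] [FiniteDimensional k K] (hK : Module.finrank k K ≤ 2)
    (a b y : K) (hab : a ≠ 0 ∨ b ≠ 0)
    (hy : y ^ 2 = HH ((algebraMap k K).comp (algebraMap R k)) f (2 * m) a b)
    (c d w : K) (hcd : c ≠ 0 ∨ d ≠ 0)
    (hw : w ^ 2 = HH ((algebraMap k K).comp (algebraMap R k)) G (2 * l) c d) : False := by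
  let A := Localization.AtPrime P
  have : IsDiscreteValuationRing A :=
    IsLocalization.AtPrime.isDiscreteValuationRing_of_dedekind_domain R hP A
  let _ : Algebra A k := IsLocalization.localizationAlgebraOfSubmonoidLe A k P.primeCompl (nonZeroDivisors R)
    P.primeCompl_le_nonZeroDivisors
  have : IsScalarTower R A k := IsLocalization.localization_isScalarTower_of_submonoid_le A k P.primeCompl
    (nonZeroDivisors R) P.primeCompl_le_nonZeroDivisors
  have : IsFractionRing A k :=
    IsFractionRing.isFractionRing_of_isDomain_of_isLocalization P.primeCompl A k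
  have hcomp : (residue A).comp (algebraMap R A) = algebraMap R P.ResidueField := rfl
  have hmaps : (algebraMap k K).comp (algebraMap R k) =
      ((algebraMap k K).comp (algebraMap A k)).comp (algebraMap R A) := by
    rw [RingHom.comp_assoc, ← IsScalarTower.algebraMap_eq R A k]
  rw [hmaps, HH_comp] at hy hw
  rw [hG, HH_C_mul] at hw
  refine core (A := A) (k := k) (K := K) hK (f.map (algebraMap R A)) m (natDegree_map_le.trans hfdeg)
    ?_ ?_ G₁ l hirr hdeg hG₁ hl (algebraMap R A π) ?_ hπ a b y hab hy c d w hcd hw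
  · rw [coeff_map]
    exact hf0
  · intro e
    rw [map_map, hcomp]
    exact hf e
  · intro h0
    apply hπ0
    exact (IsLocalization.injective A P.primeCompl_le_nonZeroDivisors) (by rw [h0, map_zero])

/-- A residue class modulo `45` of pairs of polynomials without common quadratic points. -/
theorem class_exists (P Q : Ideal R) [P.IsMaximal] [Q.IsMaximal] [Finite P.ResidueField]
    [Finite Q.ResidueField] (hP : P ≠ ⊥) (hQ : Q ≠ ⊥) (h3 : (3 : R) ∈ P) (h5 : (5 : R) ∈ Q)
    (m l : ℕ) (hm : 2 ≤ m) (hl : 2 ≤ l) :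
    ∃ f₀ G₀ : R[X], f₀.natDegree = 2 * m ∧ G₀.natDegree = 2 * l ∧
      ∀ f G : R[X], f.natDegree ≤ 2 * m → G.natDegree ≤ 2 * l →
        (∀ i, (45 : R) ∣ f.coeff i - f₀.coeff i) → (∀ i, (45 : R) ∣ G.coeff i - G₀.coeff i) →
        (f.natDegree = 2 * m ∧ Irreducible (f.map (algebraMap R k))) ∧
        (G.natDegree = 2 * l ∧ Irreducible (G.map (algebraMap R k))) ∧
        ∀ (K : Type) [Field K] [Algebra k K] [FiniteDimensional k K],
          Module.finrank k K ≤ 2 → ∀ a b y : K, (a ≠ 0 ∨ b ≠ 0) →
          y ^ 2 = HH ((algebraMap k K).comp (algebraMap R k)) f (2 * m) a b →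
          ∀ c d w : K, (c ≠ 0 ∨ d ≠ 0) →
          w ^ 2 = HH ((algebraMap k K).comp (algebraMap R k)) G (2 * l) c d → False := by
  have e3 : (3 : P.ResidueField) = 0 := by
    have := (Ideal.algebraMap_residueField_eq_zero (I := P)).2 h3
    rwa [map_ofNat] at this
  have e5 : (5 : Q.ResidueField) = 0 := by
    have := (Ideal.algebraMap_residueField_eq_zero (I := Q)).2 h5
    rwa [map_ofNat] at this
  have hchar : ringChar P.ResidueField ≠ 2 := by
    intro h
    have h2 : (2 : P.ResidueField) = 0 := by
      have := ringChar.Nat.cast_ringChar (R := P.ResidueField)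
      rw [h] at this
      exact_mod_cast this
    have : (1 : P.ResidueField) = 0 := by linear_combination e3 - h2
    exact one_ne_zero this
  obtain ⟨s, hs1, hs2, hs3⟩ := exists_nonsq (F := P.ResidueField) hchar m hm
  obtain ⟨s', -, hs'2, hs'3⟩ := exists_irred (F := Q.ResidueField) (2 * m) (by omega)
  obtain ⟨t, -, ht2, ht3⟩ := exists_irred (F := P.ResidueField) (2 * l) (by omega)
  obtain ⟨t', -, ht'2, ht'3⟩ := exists_irred (F := Q.ResidueField) (2 * l) (by omega)
  obtain ⟨a, ha1, ha2⟩ := exists_lift _ P.algebraMap_residueField_surjective s (2 * m) hs1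
  obtain ⟨b, hb1, hb2⟩ := exists_lift _ Q.algebraMap_residueField_surjective s' (2 * m) hs'3.le
  obtain ⟨c, hc1, hc2⟩ := exists_lift _ P.algebraMap_residueField_surjective t (2 * l) ht3.le
  obtain ⟨d, hd1, hd2⟩ := exists_lift _ Q.algebraMap_residueField_surjective t' (2 * l) ht'3.le
  obtain ⟨π, hπ0, hπ⟩ := exists_unif P hP
  let f₀ : R[X] := C 10 * a - C 9 * b
  let G₀ : R[X] := C (10 * π) * c - C 9 * d
  have hf₀ : f₀.natDegree ≤ 2 * m :=
    (natDegree_sub_le_of_le ((natDegree_C_mul_le _ _).trans ha1)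
      ((natDegree_C_mul_le _ _).trans hb1)).trans (by simp)
  have hG₀ : G₀.natDegree ≤ 2 * l :=
    (natDegree_sub_le_of_le ((natDegree_C_mul_le _ _).trans hc1)
      ((natDegree_C_mul_le _ _).trans hd1)).trans (by simp)
  have hfQ : ∀ f : R[X], f.natDegree ≤ 2 * m → (∀ i, (45 : R) ∣ f.coeff i - f₀.coeff i) →
      f.natDegree = 2 * m ∧ Irreducible (f.map (algebraMap R k)) := by
    intro f hf hcong
    have hmap : f.map (algebraMap R Q.ResidueField) = s' := by
      rw [← hb2]
      ext i
      obtain ⟨e, he⟩ := hcong i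
      have h1 : f.coeff i = 10 * a.coeff i - 9 * b.coeff i + 45 * e := by
        rw [← he]; simp [f₀]
      rw [coeff_map, coeff_map, h1]
      simp only [map_add, map_sub, map_mul, map_ofNat]
      linear_combination (2 * algebraMap R Q.ResidueField (a.coeff i) -
        2 * algebraMap R Q.ResidueField (b.coeff i) + 9 * algebraMap R Q.ResidueField e) * e5
    exact irred_of_mod Q hQ f _ hf (by rw [hmap, hs'3]) (by rw [hmap]; exact hs'2)
  have hGQ : ∀ f : R[X], f.natDegree ≤ 2 * l → (∀ i, (45 : R) ∣ f.coeff i - G₀.coeff i) →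
      f.natDegree = 2 * l ∧ Irreducible (f.map (algebraMap R k)) := by
    intro f hf hcong
    have hmap : f.map (algebraMap R Q.ResidueField) = t' := by
      rw [← hd2]
      ext i
      obtain ⟨e, he⟩ := hcong i
      have h1 : f.coeff i = 10 * π * c.coeff i - 9 * d.coeff i + 45 * e := by
        rw [← he]; simp [G₀, mul_assoc]
      rw [coeff_map, coeff_map, h1]
      simp only [map_add, map_sub, map_mul, map_ofNat]
      linear_combination (2 * algebraMap R Q.ResidueField π *
        algebraMap R Q.ResidueField (c.coeff i) -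
        2 * algebraMap R Q.ResidueField (d.coeff i) + 9 * algebraMap R Q.ResidueField e) * e5
    exact irred_of_mod Q hQ f _ hf (by rw [hmap, ht'3]) (by rw [hmap]; exact ht'2)
  refine ⟨f₀, G₀, (hfQ f₀ hf₀ (by simp)).1, (hGQ G₀ hG₀ (by simp)).1, ?_⟩
  intro f G hf hG hcf hcG
  refine ⟨hfQ f hf hcf, hGQ G hG hcG, ?_⟩
  intro K _ _ _ hK x₁ x₂ y hx hy z₁ z₂ w hz hw
  have hmapf : f.map (algebraMap R P.ResidueField) = s := by
    rw [← ha2]
    ext i
    obtain ⟨e, he⟩ := hcf i
    have h1 : f.coeff i = 10 * a.coeff i - 9 * b.coeff i + 45 * e := by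
      rw [← he]; simp [f₀]
    rw [coeff_map, coeff_map, h1]
    simp only [map_add, map_sub, map_mul, map_ofNat]
    linear_combination (3 * algebraMap R P.ResidueField (a.coeff i) -
      3 * algebraMap R P.ResidueField (b.coeff i) + 15 * algebraMap R P.ResidueField e) * e3
  let A := Localization.AtPrime P
  have hr3 : residue A (3 : A) = 0 := by
    rw [map_ofNat]
    exact e3
  obtain ⟨r, hr⟩ := (hπ 3).1 hr3
  have hG45 : (C (45 : R)) ∣ G - G₀ := by
    rw [C_dvd_iff_dvd_coeff]
    intro i
    rw [coeff_sub]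
    exact hcG i
  obtain ⟨E, hE⟩ := hG45
  let φ := algebraMap R A
  let G₁ : A[X] := C 10 * c.map φ - C (3 * r) * d.map φ + C (15 * r) * E.map φ
  have hGG₁ : G.map φ = C (φ π) * G₁ := by
    ext i
    have h1 : G.coeff i = 10 * π * c.coeff i - 9 * d.coeff i + 45 * E.coeff i := by
      have h0 := congrArg (fun p => coeff p i) hE
      simp only [coeff_sub, coeff_C_mul, G₀] at h0
      linear_combination h0
    have hG1c : G₁.coeff i =
        10 * φ (c.coeff i) - 3 * r * φ (d.coeff i) + 15 * r * φ (E.coeff i) := by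
      simp only [G₁, coeff_add, coeff_sub, coeff_C_mul, coeff_map]
    rw [coeff_map, h1, coeff_C_mul, hG1c]
    simp only [map_add, map_sub, map_mul]
    have hφ10 : φ 10 = 10 := map_ofNat φ 10
    have hφ9 : φ 9 = 9 := map_ofNat φ 9
    have hφ45 : φ 45 = 45 := map_ofNat φ 45
    rw [hφ10, hφ9, hφ45]
    have hr' : (3 : A) = φ π * r := hr
    linear_combination (-3 * φ (d.coeff i) + 15 * φ (E.coeff i)) * hr'
  have hφπ : φ π ≠ 0 := fun h0 => hπ0
    ((IsLocalization.injective A P.primeCompl_le_nonZeroDivisors) (by rw [map_zero]; exact h0))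
  have hG₁deg : G₁.natDegree ≤ 2 * l := by
    rw [← natDegree_C_mul hφπ, ← hGG₁]
    exact natDegree_map_le.trans hG
  have hG₁map : G₁.map (residue A) = t := by
    rw [← hc2]
    have hcomp : (residue A).comp φ = algebraMap R P.ResidueField := rfl
    simp only [G₁, Polynomial.map_add, Polynomial.map_sub, Polynomial.map_mul, map_C, map_mul,
      map_map, hcomp, hr3, zero_mul, map_zero, sub_zero]
    have h10 : residue A (10 : A) = 1 := by
      have : (10 : A) = 3 * 3 + 1 := by norm_num
      rw [this, map_add, map_mul, hr3, map_one, zero_mul, zero_add]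
    have h15 : residue A (15 : A) = 0 := by
      have : (15 : A) = 3 * 5 := by norm_num
      rw [this, map_mul, hr3, zero_mul]
    rw [h10, h15]
    simp
  refine noPoints (k := k) P hP f m hf ?_ ?_ G l hl π hπ0 hπ G₁ hG₁deg hGG₁ ?_ ?_ hK
    x₁ x₂ y hx hy z₁ z₂ w hz hw
  · rw [← coeff_map, hmapf]; exact hs2
  · rw [hmapf]; exact hs3
  · rw [hG₁map]; exact ht2
  · rw [hG₁map]; exact ht3

end dedekind

end Pool.Agent.Y214.QP
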