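import Mathlib
import Pool.Agent.Y214.QP.Arith

set_option autoImplicit false

open AlgebraicGeometry CategoryTheory CategoryTheory.Limits Polynomial

namespace Pool.Agent.Y214.QP

/-- The coordinate ring `k[x, y] / (y ^ 2 - F(x))` of the affine curve `y ^ 2 = F(x)`. -/
abbrev CoordRing {k : Type} [Field k] (F : k[X]) : Type := AdjoinRoot (X ^ 2 - C F : k[X][X])

/-- The degree of a point `p` of a `k`-scheme `s : X ⟶ Spec k`: the dimension over `k` of the
residue field of `p`, where `k` acts through `Spec κ(p) ⟶ X ⟶ Spec k`. -/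
noncomputable def pointDegree {k : Type} [Field k] {X : Scheme.{0}}
    (s : X ⟶ Spec (CommRingCat.of k)) (p : X) : ℕ :=
  @Module.finrank k (X.residueField p) _ _
    ((Spec.preimage (X.fromSpecResidueField p ≫ s)).hom.toModule)

/-- a point lying in an affine chart gives a homomorphism to the residue field over `k` -/
lemma chart_hom {k : Type} [Field k] {X V : Scheme.{0}} (s : X ⟶ Spec (CommRingCat.of k))
    (q : X ⟶ V) (v : V ⟶ Spec (CommRingCat.of k)) (hq : q ≫ v = s) (S : Type) [CommRing S]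
    [Algebra k S] (i : Spec (CommRingCat.of S) ⟶ V) [IsOpenImmersion i]
    (hi : i ≫ v = Spec.map (CommRingCat.ofHom (algebraMap k S))) (p : X)
    (hp : q p ∈ Set.range i) :
    ∃ φ : S →+* X.residueField p,
      φ.comp (algebraMap k S) = (Spec.preimage (X.fromSpecResidueField p ≫ s)).hom := by
  have h1 : Set.range (X.fromSpecResidueField p ≫ q) ⊆ Set.range i := by
    rintro _ ⟨e, rfl⟩
    rw [Scheme.Hom.comp_apply, Scheme.fromSpecResidueField_apply]
    exact hp
  let l := IsOpenImmersion.lift i (X.fromSpecResidueField p ≫ q) h1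
  refine ⟨(Spec.preimage l).hom, ?_⟩
  have h2 : CommRingCat.ofHom (algebraMap k S) ≫ Spec.preimage l =
      Spec.preimage (X.fromSpecResidueField p ≫ s) := by
    apply Spec.map_injective
    rw [Spec.map_comp, Spec.map_preimage, Spec.map_preimage, ← hi, ← Category.assoc,
      IsOpenImmersion.lift_fac, Category.assoc, hq]
  exact congrArg (fun e => CommRingCat.Hom.hom e) h2

lemma hom_eq_eval₂ {k S : Type} [CommRing k] [CommRing S] (θ : k[X] →+* S) (F : k[X]) :
    θ F = F.eval₂ (θ.comp C) (θ X) := by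
  conv_lhs => rw [← eval₂_C_X (p := F)]
  rw [hom_eval₂]

lemma affine_point {k K : Type} [Field k] [Field K] (r : k →+* K) (F : k[X]) (n : ℕ)
    (hF : F.natDegree = n) (φ : CoordRing F →+* K)
    (hφ : φ.comp (algebraMap k (CoordRing F)) = r) :
    ∃ a b y : K, (a ≠ 0 ∨ b ≠ 0) ∧ y ^ 2 = HH r F n a b := by
  refine ⟨φ (AdjoinRoot.of _ X), 1, φ (AdjoinRoot.root _), Or.inr one_ne_zero, ?_⟩
  rw [HH_one _ _ _ hF.le, ← hφ, ← map_pow]
  have h := AdjoinRoot.eval₂_root (X ^ 2 - C F : k[X][X])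
  simp only [eval₂_sub, eval₂_X_pow, eval₂_C] at h
  rw [sub_eq_zero.1 h]
  have h2 : (AdjoinRoot.of (X ^ 2 - C F : k[X][X])) F =
      F.eval₂ (algebraMap k (CoordRing F)) (AdjoinRoot.of _ X) :=
    hom_eq_eval₂ _ F
  rw [h2, hom_eval₂]

lemma infinity_point {k K : Type} [Field k] [Field K] (r : k →+* K) (F : k[X]) (n : ℕ)
    (hF : F.natDegree = n) (φ : CoordRing F.reverse →+* K)
    (hφ : φ.comp (algebraMap k (CoordRing F.reverse)) = r) :
    ∃ a b y : K, (a ≠ 0 ∨ b ≠ 0) ∧ y ^ 2 = HH r F n a b := by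
  refine ⟨1, φ (AdjoinRoot.of _ X), φ (AdjoinRoot.root _), Or.inl one_ne_zero, ?_⟩
  subst hF
  rw [HH_reverse, ← hφ, ← map_pow]
  have h := AdjoinRoot.eval₂_root (X ^ 2 - C F.reverse : k[X][X])
  simp only [eval₂_sub, eval₂_X_pow, eval₂_C] at h
  rw [sub_eq_zero.1 h]
  have h2 : (AdjoinRoot.of (X ^ 2 - C F.reverse : k[X][X])) F.reverse =
      F.reverse.eval₂ (algebraMap k (CoordRing F.reverse)) (AdjoinRoot.of _ X) :=
    hom_eq_eval₂ _ F.reverse
  rw [h2, hom_eval₂]

/-- a geometric point of the affine curve -/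
lemma exists_geom_point {k : Type} [Field k] (F : k[X]) :
    ∃ φ : CoordRing F →+* AlgebraicClosure k,
      φ.comp (algebraMap k (CoordRing F)) = algebraMap k (AlgebraicClosure k) := by
  obtain ⟨y, hy⟩ := IsAlgClosed.exists_pow_nat_eq
    (F.eval₂ (algebraMap k (AlgebraicClosure k)) 0) (n := 2) (by norm_num)
  refine ⟨AdjoinRoot.lift (eval₂RingHom (algebraMap k (AlgebraicClosure k)) 0) y ?_, ?_⟩
  · simp [hy]
  · ext c
    have : algebraMap k (CoordRing F) c = AdjoinRoot.of _ (C c) := rfl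
    rw [RingHom.comp_apply, this, AdjoinRoot.lift_of]
    simp

/-- The part of the product lying over both affine curves. -/
def goodSet {k : Type} [Field k] {S T : Type} [CommRing S] [CommRing T] {V W : Scheme.{0}}
    (v : V ⟶ Spec (CommRingCat.of k)) (w : W ⟶ Spec (CommRingCat.of k))
    (i : Spec (CommRingCat.of S) ⟶ V) (j : Spec (CommRingCat.of T) ⟶ W) :
    Set ↥(pullback v w) :=
  (pullback.fst v w) ⁻¹' (Set.range i) ∩ (pullback.snd v w) ⁻¹' (Set.range j)

lemma isOpen_goodSet {k : Type} [Field k] {S T : Type} [CommRing S] [CommRing T]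
    {V W : Scheme.{0}}
    (v : V ⟶ Spec (CommRingCat.of k)) (w : W ⟶ Spec (CommRingCat.of k))
    (i : Spec (CommRingCat.of S) ⟶ V) (j : Spec (CommRingCat.of T) ⟶ W)
    [IsOpenImmersion i] [IsOpenImmersion j] : IsOpen (goodSet v w i j) :=
  (i.isOpenEmbedding.isOpen_range.preimage (pullback.fst v w).continuous).inter
    (j.isOpenEmbedding.isOpen_range.preimage (pullback.snd v w).continuous)

lemma goodSet_nonempty {k : Type} [Field k] (F G : k[X]) {V W : Scheme.{0}}
    (v : V ⟶ Spec (CommRingCat.of k)) (w : W ⟶ Spec (CommRingCat.of k))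
    (i : Spec (CommRingCat.of (CoordRing F)) ⟶ V) (j : Spec (CommRingCat.of (CoordRing G)) ⟶ W)
    (hi : i ≫ v = Spec.map (CommRingCat.ofHom (algebraMap k (CoordRing F))))
    (hj : j ≫ w = Spec.map (CommRingCat.ofHom (algebraMap k (CoordRing G)))) :
    (goodSet v w i j).Nonempty := by
  obtain ⟨φ, hφ⟩ := exists_geom_point F
  obtain ⟨ψ, hψ⟩ := exists_geom_point G
  let q₁ := Spec.map (CommRingCat.ofHom φ) ≫ i
  let q₂ := Spec.map (CommRingCat.ofHom ψ) ≫ j
  have hq : q₁ ≫ v = q₂ ≫ w := by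
    simp only [q₁, q₂, Category.assoc, hi, hj]
    rw [← Spec.map_comp, ← Spec.map_comp, ← CommRingCat.ofHom_comp, ← CommRingCat.ofHom_comp,
      hφ, hψ]
  let q : Spec (CommRingCat.of (AlgebraicClosure k)) ⟶ pullback v w := pullback.lift q₁ q₂ hq
  let pt : Spec (CommRingCat.of (AlgebraicClosure k)) :=
    (⟨⊥, Ideal.isPrime_bot⟩ : PrimeSpectrum (AlgebraicClosure k))
  refine ⟨q pt, ⟨Spec.map (CommRingCat.ofHom φ) pt, ?_⟩, ⟨Spec.map (CommRingCat.ofHom ψ) pt, ?_⟩⟩
  · rw [← Scheme.Hom.comp_apply, ← Scheme.Hom.comp_apply, pullback.lift_fst]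
  · rw [← Scheme.Hom.comp_apply, ← Scheme.Hom.comp_apply, pullback.lift_snd]

end Pool.Agent.Y214.QP
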