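import Mathlib
import Pool.Agent.Y214.QP.Sch

set_option autoImplicit false

open AlgebraicGeometry CategoryTheory CategoryTheory.Limits Polynomial NumberField

namespace Pool.Agent.Y214.QP

lemma exists_prime_over (k : Type) [Field k] [NumberField k] (q : ℕ) (hq : q.Prime) :
    ∃ P : Ideal (𝓞 k), ∃ _ : P.IsMaximal, P ≠ ⊥ ∧ (q : 𝓞 k) ∈ P ∧ Finite P.ResidueField := by
  have hmax : (Ideal.span {(q : ℤ)}).IsMaximal :=
    haveI : Fact q.Prime := ⟨hq⟩
    Int.ideal_span_isMaximal_of_prime q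
  obtain ⟨P, hP, hP2⟩ := Ideal.exists_maximal_ideal_liesOver_of_isIntegral
    (Ideal.span {(q : ℤ)}) (S := 𝓞 k)
  have hmem : (q : 𝓞 k) ∈ P := by
    have h1 : (q : ℤ) ∈ Ideal.span {(q : ℤ)} := Ideal.mem_span_singleton_self _
    rw [hP2.over, Ideal.mem_comap] at h1
    simpa using h1
  have hbot : P ≠ ⊥ := by
    rintro rfl
    rw [Ideal.mem_bot] at hmem
    have : (q : 𝓞 k) ≠ 0 := by exact_mod_cast hq.ne_zero
    exact this hmem
  have hfin : Finite (𝓞 k ⧸ P) := Ideal.finiteQuotientOfFreeOfNeBot P hbot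
  refine ⟨P, hP, hbot, hmem, ?_⟩
  exact Finite.of_surjective _ P.bijective_algebraMap_quotient_residueField.surjective

/-- all points of degree at most two are excluded, chart by chart -/
theorem noPoints_chart {k : Type} [Field k] {R : Type} [CommRing R] [Algebra R k] (f G : R[X])
    (m l : ℕ)
    (hno : ∀ (K : Type) [Field K] [Algebra k K] [FiniteDimensional k K],
          Module.finrank k K ≤ 2 → ∀ a b y : K, (a ≠ 0 ∨ b ≠ 0) →
          y ^ 2 = HH ((algebraMap k K).comp (algebraMap R k)) f (2 * m) a b →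
          ∀ c d w : K, (c ≠ 0 ∨ d ≠ 0) →
          w ^ 2 = HH ((algebraMap k K).comp (algebraMap R k)) G (2 * l) c d → False)
    (hf : (f.map (algebraMap R k)).natDegree = 2 * m)
    (hG : (G.map (algebraMap R k)).natDegree = 2 * l)
    {V W : Scheme.{0}} (v : V ⟶ Spec (CommRingCat.of k)) (w : W ⟶ Spec (CommRingCat.of k))
    (F' G' : k[X]) (hF' : F' = f.map (algebraMap R k) ∨ F' = (f.map (algebraMap R k)).reverse)
    (hG' : G' = G.map (algebraMap R k) ∨ G' = (G.map (algebraMap R k)).reverse)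
    (i : Spec (CommRingCat.of (CoordRing F')) ⟶ V) (j : Spec (CommRingCat.of (CoordRing G')) ⟶ W)
    [IsOpenImmersion i] [IsOpenImmersion j]
    (hi : i ≫ v = Spec.map (CommRingCat.ofHom (algebraMap k (CoordRing F'))))
    (hj : j ≫ w = Spec.map (CommRingCat.ofHom (algebraMap k (CoordRing G'))))
    (p : ↥(pullback v w)) (hp1 : pullback.fst v w p ∈ Set.range i)
    (hp2 : pullback.snd v w p ∈ Set.range j) :
    pointDegree (pullback.fst v w ≫ v) p ≠ 1 ∧ pointDegree (pullback.fst v w ≫ v) p ≠ 2 := by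
  obtain ⟨φ, hφ⟩ := chart_hom (pullback.fst v w ≫ v) (pullback.fst v w) v rfl _ i hi p hp1
  obtain ⟨ψ, hψ⟩ := chart_hom (pullback.fst v w ≫ v) (pullback.snd v w) w
    (pullback.condition).symm _ j hj p hp2
  let K := (pullback v w).residueField p
  let r : k →+* K := (Spec.preimage ((pullback v w).fromSpecResidueField p ≫
    (pullback.fst v w ≫ v))).hom
  let _ : Algebra k K := r.toAlgebra
  have key : ∀ n : ℕ, n ≠ 0 → n ≤ 2 → pointDegree (pullback.fst v w ≫ v) p ≠ n := by
    intro n hn0 hn2 hn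
    have hfr : Module.finrank k K = n := hn
    have : FiniteDimensional k K := FiniteDimensional.of_finrank_pos (by omega)
    have h1 : ∃ a b y : K, (a ≠ 0 ∨ b ≠ 0) ∧ y ^ 2 = HH r (f.map (algebraMap R k)) (2 * m) a b := by
      rcases hF' with h | h
      · subst h
        exact affine_point r _ _ hf φ hφ
      · subst h
        exact infinity_point r _ _ hf φ hφ
    have h2 : ∃ a b y : K, (a ≠ 0 ∨ b ≠ 0) ∧ y ^ 2 = HH r (G.map (algebraMap R k)) (2 * l) a b := by
      rcases hG' with h | h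
      · subst h
        exact affine_point r _ _ hG ψ hψ
      · subst h
        exact infinity_point r _ _ hG ψ hψ
    obtain ⟨a, b, y, hab, hy⟩ := h1
    obtain ⟨c, d, z, hcd, hz⟩ := h2
    rw [← HH_comp] at hy hz
    exact hno K (hfr.le.trans hn2) a b y hab hy c d z hcd hz
  exact ⟨key 1 one_ne_zero (by norm_num), key 2 two_ne_zero le_rfl⟩

end Pool.Agent.Y214.QP
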